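import Pool.Agent.H96.JCT.Stmts

/-! Row CPT of the board jct (MP_ffb5eb_co). -/

set_option autoImplicit false

namespace Pool.JCT

open Complex Set Topology Filter

theorem cpt_z_cont : Continuous z := by
  have h : z = fun p : Pl => (p.1 : ℂ) + (p.2 : ℂ) * I := by
    funext p
    apply Complex.ext <;> simp [z]
  rw [h]
  fun_prop

theorem cpt_z_inj {p q : Pl} (h : z p = z q) : p = q := by
  have h1 := congrArg Complex.re h
  have h2 := congrArg Complex.im h
  exact Prod.ext h1 h2

theorem cpt_delta (f : ℝ → Pl) (a b : ℝ) (x : Pl) (hf : Continuous f) (hx : Off f a b x) :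
    ∃ δ : ℝ, 0 < δ ∧ ∀ t ∈ uIcc a b, δ ≤ ‖z (f t) - z x‖ := by
  have hc : Continuous fun t => ‖z (f t) - z x‖ :=
    ((cpt_z_cont.comp hf).sub continuous_const).norm
  obtain ⟨t0, ht0, hmin⟩ := isCompact_uIcc.exists_isMinOn (nonempty_uIcc (a := a) (b := b))
    hc.continuousOn
  refine ⟨‖z (f t0) - z x‖, ?_, fun t ht => hmin ht⟩
  rw [norm_pos_iff, sub_ne_zero]
  intro h
  exact hx t0 ht0 (cpt_z_inj h)

/-- The quotient. -/
noncomputable def cptg (f : ℝ → Pl) (x p : Pl) (t : ℝ) : ℂ := 1 + (z x - z p) / (z (f t) - z x)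

theorem cptg_slit (f : ℝ → Pl) (x p : Pl) (t : ℝ) (δ : ℝ) (h1 : δ ≤ ‖z (f t) - z x‖)
    (h2 : ‖z x - z p‖ < δ) : cptg f x p t ∈ slitPlane := by
  apply Complex.mem_slitPlane_of_norm_lt_one
  rw [norm_div, div_lt_one]
  · exact lt_of_lt_of_le h2 h1
  · exact lt_of_le_of_lt (norm_nonneg _) (lt_of_lt_of_le h2 h1)

theorem cpt_inc (h1 : INC_S) (f : ℝ → Pl) (a b : ℝ) (x p : Pl) (hf : Continuous f)
    (hx : Off f a b x) (δ : ℝ) (hδ : ∀ t ∈ uIcc a b, δ ≤ ‖z (f t) - z x‖)
    (hp : ‖z x - z p‖ < δ) :
    Off f a b p ∧ inc f a b p = inc f a b x + (log (cptg f x p b) - log (cptg f x p a)) := by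
  have hδ0 : 0 < δ := lt_of_le_of_lt (norm_nonneg _) hp
  have hne : ∀ t ∈ uIcc a b, z (f t) - z x ≠ 0 := by
    intro t ht h
    have := hδ t ht
    rw [h, norm_zero] at this
    linarith
  have hoff : Off f a b p := by
    intro t ht h
    have := hδ t ht
    rw [h, norm_sub_rev] at this
    linarith
  refine ⟨hoff, ?_⟩
  obtain ⟨⟨F, hF⟩, huniq⟩ := h1 f a b x hf hx
  have hG : Lift f a b p (fun t => F t + log (cptg f x p t)) := by
    refine ⟨hF.1.add ?_, ?_⟩
    · apply ContinuousOn.clog
      · unfold cptg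
        apply continuousOn_const.add
        apply continuousOn_const.div
        · exact ((cpt_z_cont.comp hf).sub continuous_const).continuousOn
        · exact hne
      · intro t ht
        exact cptg_slit f x p t δ (hδ t ht) hp
    · intro t ht
      have h3 := cptg_slit f x p t δ (hδ t ht) hp
      rw [exp_add, hF.2 t ht, exp_log (slitPlane_ne_zero h3)]
      unfold cptg
      have := hne t ht
      field_simp
      ring
  have h4 := (h1 f a b p hf hoff).2 _ hG
  rw [← h4, ← huniq F hF]
  ring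

theorem cpt_thm (h1 : INC_S) : CPT_S := by
  intro f a b x hf hx
  obtain ⟨δ, hδ0, hδ⟩ := cpt_delta f a b x hf hx
  have hev : ∀ᶠ p in 𝓝 x, ‖z x - z p‖ < δ := by
    have hc : Continuous fun p => ‖z x - z p‖ := (continuous_const.sub cpt_z_cont).norm
    have h0 : ‖z x - z x‖ < δ := by rw [sub_self, norm_zero]; exact hδ0
    exact hc.continuousAt.eventually (gt_mem_nhds h0)
  refine ⟨?_, ?_⟩
  · filter_upwards [hev] with p hp
    exact (cpt_inc h1 f a b x p hf hx δ hδ hp).1
  · have hlog : ∀ t ∈ uIcc a b, Tendsto (fun p => log (cptg f x p t)) (𝓝 x) (𝓝 0) := by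
      intro t ht
      have hc : ContinuousAt (fun p => log (cptg f x p t)) x := by
        apply ContinuousAt.clog
        · unfold cptg
          exact (continuous_const.add ((continuous_const.sub cpt_z_cont).div_const _)).continuousAt
        · apply cptg_slit f x x t δ (hδ t ht)
          rw [sub_self, norm_zero]
          exact hδ0
      have h0 : log (cptg f x x t) = 0 := by
        unfold cptg
        rw [sub_self, zero_div, add_zero, log_one]
      have h2 := hc.tendsto
      rw [h0] at h2
      exact h2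
    have h5 : Tendsto (fun p => inc f a b x + (log (cptg f x p b) - log (cptg f x p a))) (𝓝 x)
        (𝓝 (inc f a b x + (0 - 0))) :=
      tendsto_const_nhds.add ((hlog b right_mem_uIcc).sub (hlog a left_mem_uIcc))
    rw [sub_zero, add_zero] at h5
    apply h5.congr'
    filter_upwards [hev] with p hp
    exact (cpt_inc h1 f a b x p hf hx δ hδ hp).2.symm

end Pool.JCT
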