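import Pool.Agent.H96.JCT.Stmts

/-! Row SID of the board jct (MP_ffb5eb_co). -/

set_option autoImplicit false

namespace Pool.JCT

open Complex Set Topology Filter

theorem sid_thm (h1 : MON_S) : SID_S := by
  intro Φ U h r hU hc hinj hr hrU h0 hax
  obtain ⟨δ, hδ, _, _, hm⟩ := h1 (Φ.trans (Homeomorph.prodComm ℝ ℝ)) U h r hU hc hinj hr hrU hax
  have hr0 : (Φ (h r)).2 = 0 := by rw [h0]
  have hrI : r ∈ Icc (r - δ) (r + δ) := ⟨by linarith, by linarith⟩
  refine ⟨δ, hδ, ?_⟩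
  rcases hm with hm | hm
  · left
    refine ⟨fun t h2 h3 => ?_, fun t h2 h3 => ?_⟩
    · have h4 : (Φ (h t)).2 < (Φ (h r)).2 := hm (show t ∈ Icc (r - δ) (r + δ) from
        ⟨h2.le, by linarith⟩) hrI h3
      rwa [hr0] at h4
    · have h4 : (Φ (h r)).2 < (Φ (h t)).2 := hm hrI (show t ∈ Icc (r - δ) (r + δ) from
        ⟨by linarith, h3.le⟩) h2
      rwa [hr0] at h4
  · right
    refine ⟨fun t h2 h3 => ?_, fun t h2 h3 => ?_⟩
    · have h4 : (Φ (h r)).2 < (Φ (h t)).2 := hm (show t ∈ Icc (r - δ) (r + δ) from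
        ⟨h2.le, by linarith⟩) hrI h3
      rwa [hr0] at h4
    · have h4 : (Φ (h t)).2 < (Φ (h r)).2 := hm hrI (show t ∈ Icc (r - δ) (r + δ) from
        ⟨by linarith, h3.le⟩) h2
      rwa [hr0] at h4

end Pool.JCT
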